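import Mathlib
import Pool.Agent.MP_f37147_nt.G.All
import Pool.Agent.MP_f37147_nt.G.Fin

namespace Pool.Agent.Results.MP_f37147_nt.Explicit

open Polynomial

/-- Prime pairs `a P ^ 2 + c = d Q` over a large finite field of characteristic two, for the
admissible triples with `L (a c)' = g L ^ m a d`, where `L = 1` or `L = X + α`. -/
theorem result : ∃ K : ℕ, ∀ (F : Type) [Field F] [Fintype F] [CharP F 2]
    (a c d L M x y : F[X]) (g : F) (m : ℕ), a * d * M ≠ 0 → a * x ^ 2 + c = d * y →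
    IsCoprime (x * y) (a * d * M) → g ≠ 0 → L.Monic → L.natDegree ≤ 1 → IsCoprime L M →
    L * derivative (a * c) = C g * L ^ m * (a * d) → c ≠ C g * L ^ m * d →
    (∀ j : ℕ, L ^ j ∣ a → L ^ j ∣ c - C g * L ^ m * d) →
    K * (((a * M).natDegree + 1) * ((a * M).natDegree + c.natDegree)) < Fintype.card F →
    ∃ n₀ : ℕ, ∀ n, n₀ ≤ n →
      (L ≠ 1 → 2 * n + a.natDegree ≡ d.natDegree + m [MOD Fintype.card F - 1]) →
      ∃ P Q : F[X], P.Monic ∧ P.natDegree = n ∧ M ∣ P - x ∧ Irreducible P ∧ Irreducible Q ∧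
        a * P ^ 2 + c = d * Q := by
  obtain ⟨k, -, hT⟩ := Pool.Agent.PPg.tupleG
  refine ⟨2 * k + 2, fun F _ _ _ a c d L M x y g m h0 h1 h2 h3 h4 h5 h6 h7 h8 h9 hq => ?_⟩
  have ha := left_ne_zero_of_mul (left_ne_zero_of_mul h0)
  have hd := right_ne_zero_of_mul (left_ne_zero_of_mul h0)
  have hM := right_ne_zero_of_mul h0
  rw [natDegree_mul ha hM] at hq
  rcases Nat.le_one_iff_eq_zero_or_eq_one.1 h5 with e | e
  · rw [h4.natDegree_eq_zero.1 e, one_mul, one_pow, mul_one] at h7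
    obtain ⟨n₀, hn⟩ := Pool.Agent.PPg.famT (hT F) ha hd hM h3 h7 h1 h2 hq
    exact ⟨n₀, fun n h _ => hn n h⟩
  · have e' := h4.eq_X_add_C e
    rw [e'] at h6 h7 h8 h9
    obtain ⟨n₀, hn⟩ := Pool.Agent.PPg.famS (hT F) ha hd hM h3 h7 h8 h9 h6 h1 h2 hq
    exact ⟨n₀, fun n h h' => hn n h (h' fun e'' => by
      rw [e'', natDegree_one] at e
      exact zero_ne_one e)⟩

end Pool.Agent.Results.MP_f37147_nt.Explicit
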