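import Mathlib
import Pool.Agent.Mg.F43e117.Gb80aec

namespace Pool.Agent.Results.MP_f37147_nt.QuadCount

open Polynomial Finset Pool.Agent.MP_4fffd4_nt Pool.Agent.MP_f37147_nt

/-- Bateman-Horn asymptotic for `a f ^ 2 + c` over `F[X]`, `F` finite of characteristic two. -/
theorem result : ∃ K : ℕ, 0 < K ∧ ∀ (F : Type) [Field F] [Fintype F] [DecidableEq F] [CharP F 2],
    ∃ n₀ : ℕ, ∀ n, n₀ ≤ n → ∀ a c : F[X], IsCoprime a c → ¬ IsSquare (a * c) →
      a.natDegree ≤ n / K → c.natDegree ≤ n / K →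
      |(2 * n + a.natDegree : ℝ) *
          ({f : F[X] | f.Monic ∧ f.natDegree = n ∧ Irreducible (a * f ^ 2 + c)}.ncard : ℝ) -
        (Fintype.card F : ℝ) ^ n *
          ∏ P ∈ (UniqueFactorizationMonoid.normalizedFactors a).toFinset,
            (1 - 1 / (Fintype.card F : ℝ) ^ P.natDegree)⁻¹| ≤
        (Fintype.card F : ℝ) ^ (n - n / K) := by
  obtain ⟨K, hK, h⟩ := core.{0}
  refine ⟨K, hK, fun F _ _ _ _ => ?_⟩
  obtain ⟨n₀, h⟩ := h F
  refine ⟨n₀, fun n hn a c hac hsq ha hc => ?_⟩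
  have ha0 : a ≠ 0 := by rintro rfl; exact hsq (by simp)
  have hl : a.leadingCoeff⁻¹ ≠ 0 := inv_ne_zero (leadingCoeff_ne_zero.2 ha0)
  have hu : IsUnit (C a.leadingCoeff⁻¹) := isUnit_C.2 (Ne.isUnit hl)
  have h1 := h n hn (a * C a.leadingCoeff⁻¹) (c * C a.leadingCoeff⁻¹)
    (monic_mul_leadingCoeff_inv ha0)
    ((isCoprime_mul_unit_right hu _ _).2 hac)
    (by
      rw [show a * C a.leadingCoeff⁻¹ * (c * C a.leadingCoeff⁻¹) =
        a * c * C (a.leadingCoeff⁻¹ ^ 2) by rw [map_pow]; ring, derivative_mul, derivative_C,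
        mul_zero, add_zero]
      exact mul_ne_zero (derivative_ne_zero_iff.2 hsq) (C_ne_zero.2 (pow_ne_zero _ hl)))
    (by rwa [natDegree_mul_C hl]) (by rwa [natDegree_mul_C hl])
  rw [natDegree_mul_C hl] at h1
  have e1 : npr (a * C a.leadingCoeff⁻¹) (c * C a.leadingCoeff⁻¹) n =
      ({f : F[X] | f.Monic ∧ f.natDegree = n ∧ Irreducible (a * f ^ 2 + c)}.ncard : ℝ) := by
    classical
    rw [show {f : F[X] | f.Monic ∧ f.natDegree = n ∧ Irreducible (a * f ^ 2 + c)} =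
      ↑((monF F n).filter fun f => Irreducible (a * f ^ 2 + c)) by
        ext f; simp [mem_monF, and_assoc], Set.ncard_coe_finset, Finset.card_filter, npr]
    push_cast
    refine Finset.sum_congr rfl fun f _ => ?_
    rw [show a * C a.leadingCoeff⁻¹ * f ^ 2 + c * C a.leadingCoeff⁻¹ =
      (a * f ^ 2 + c) * C a.leadingCoeff⁻¹ by ring, irreducible_mul_isUnit hu]
    unfold ind
    congr
  have e2 : pf (a * C a.leadingCoeff⁻¹) =
      (UniqueFactorizationMonoid.normalizedFactors a).toFinset := by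
    ext P
    rw [mem_pf (mul_ne_zero ha0 hu.ne_zero), Multiset.mem_toFinset,
      Polynomial.mem_normalizedFactors_iff ha0, hu.dvd_mul_right]
    tauto
  rw [e1, sing, e2] at h1
  rwa [pow_sub₀ _ (card_pos' (F := F)).ne' (Nat.div_le_self _ _), ← div_eq_mul_inv]

end Pool.Agent.Results.MP_f37147_nt.QuadCount
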