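import Mathlib
import Pool.Agent.Mg.F43e117.Gb80aec
import Pool.Agent.Mg.F43e117.Geb6c0a

namespace Pool.Agent.Results.MP_f37147_nt.QuadPair

open Polynomial Pool.Agent.MP_f37147_nt

/-- Pairs `(P, Q)` with `a P ^ 2 + c = d Q`, `Q` prime and `P` almost prime, over `F[X]` with `F`
finite of characteristic two. -/
theorem result : ∃ k : ℕ, ∀ (F : Type) [Field F] [Fintype F] [CharP F 2] (a c d x₀ y₀ : F[X]),
    d ≠ 0 → ¬ IsSquare (a * c) → IsCoprime (x₀ * y₀) (a * d) →
    (Fintype.card F = 2 → IsCoprime (x₀ * y₀) (X * (X + 1))) → a * x₀ ^ 2 + c = d * y₀ →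
    ∃ n₀ : ℕ, ∀ n, n₀ ≤ n → ∃ P Q : F[X], P.Monic ∧ P.natDegree = n ∧
      Multiset.card (UniqueFactorizationMonoid.factors P) ≤ k ∧ Irreducible Q ∧
      a * P ^ 2 + c = d * Q := by
  obtain ⟨C, hC, h⟩ := core.{0}
  refine ⟨256 * C, fun F _ _ _ a c d x₀ y₀ hd hsq hcop h2 heq => ?_⟩
  obtain ⟨n₀, h⟩ := h F
  obtain ⟨n₁, h⟩ := pair_of_core hC h hd hsq hcop h2 heq
  refine ⟨n₁ + 1, fun n hn => ?_⟩
  obtain ⟨P, Q, h1, h3, h4, h5, h6⟩ := h n (by omega)
  refine ⟨P, Q, h1, h3, ?_, h5, h6⟩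
  have h7 := natDegree_eq_of_degree_eq (degree_eq_degree_of_associated
    (UniqueFactorizationMonoid.factors_prod h1.ne_zero))
  rw [natDegree_multiset_prod _ fun h0 =>
    (UniqueFactorizationMonoid.irreducible_of_factor _ h0).ne_zero rfl, h3] at h7
  have h8 := Multiset.sum_map_le_sum_map (s := UniqueFactorizationMonoid.factors P) (fun _ => n)
    (fun R => 256 * C * R.natDegree) fun R hR => h4 R
      (UniqueFactorizationMonoid.irreducible_of_factor _ hR)
      (UniqueFactorizationMonoid.dvd_of_mem_factors hR)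
  rw [Multiset.sum_map_mul_left, h7, Multiset.map_const', Multiset.sum_replicate,
    smul_eq_mul] at h8
  exact Nat.le_of_mul_le_mul_right h8 (by omega)

end Pool.Agent.Results.MP_f37147_nt.QuadPair
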