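import Mathlib
import Pool.Agent.Mg.Ff37147.G40492e

namespace Pool.Agent.Results.MP_f37147_nt.QuadPrime

open Polynomial

/-- Pairs of primes `P`, `Q` with `a P ^ 2 + (c + a h ^ 2) = d Q` over `F[X]`, `F` finite of
characteristic two, for all but boundedly many admissible shifts `h`. -/
theorem result : ∃ K : ℕ, ∀ (F : Type) [Field F] [Fintype F] [CharP F 2] (a c d : F[X])
    (H : Set F[X]), d ≠ 0 → ¬ IsSquare (a * c) → H.Finite →
    (∀ h ∈ H, ∃ x y : F[X], a * x ^ 2 + (c + a * h ^ 2) = d * y ∧ IsCoprime (x * y) (a * d) ∧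
      (Fintype.card F = 2 → IsCoprime (x * y) (X * (X + 1)))) →
    ∃ n₀ : ℕ, ∀ n, n₀ ≤ n → {h ∈ H | ¬ ∃ P Q : F[X], P.Monic ∧ P.natDegree = n ∧ Irreducible P ∧
      Irreducible Q ∧ a * P ^ 2 + (c + a * h ^ 2) = d * Q}.encard ≤ K := by
  obtain ⟨k, hk, hT⟩ := Pool.Agent.PPf.tuple
  obtain ⟨K, hK⟩ := Pool.Agent.PPf.sPigeon2 k hk
  exact ⟨K, fun F _ _ _ => hK F (Pool.Agent.PPf.sAdm F) (hT F)⟩

end Pool.Agent.Results.MP_f37147_nt.QuadPrime
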